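import Pool.Agent.H85.SC.Targets

/-! Module FAM of the board sc_modules (MP_de9001_an): one family of stations. -/

namespace Pool.Agent.H99.SC

open Pool.Agent.H87.Synth Pool.Agent.H85.SC

theorem lg_add {a k : ℕ} (hk : k < 2 ^ a) : lg (2 ^ a + k) = a := by
  unfold lg
  rw [Nat.log_eq_iff (Or.inr ⟨by norm_num, by positivity⟩)]
  constructor
  · omega
  · rw [pow_succ]; omega

theorem lvl_add {a k : ℕ} (n : ℕ) (hk : k < 2 ^ a) : lvl n (2 ^ a + k) = n + k := by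
  unfold lvl
  rw [lg_add hk]
  omega

theorem valid_add {a k n : ℕ} (hk : k < 2 ^ a) (hn : n < 2 ^ a) : Valid n (2 ^ a + k) := by
  refine ⟨?_, ?_⟩
  · have : 0 < 2 ^ a := by positivity
    omega
  · rw [lg_add hk]; exact hn

theorem inP_add {a k n : ℕ} (hk : k < 2 ^ a) (z : ℤ) :
    inP n (2 ^ a + k) z ↔ if k = 0 then inh n z else ing n z := by
  unfold inP
  rw [lg_add hk]
  by_cases h : k = 0
  · subst h; simp
  · rw [if_neg h]
    constructor
    · rintro (⟨h1, _⟩ | ⟨_, h2⟩)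
      · omega
      · exact h2
    · intro h2
      exact Or.inr ⟨by omega, h2⟩

/-- the periodic function of the family -/
noncomputable def XX (n k : ℕ) (z : ℤ) : ℂ :=
  ind (fun z => if k = 0 then inh n z else ing n z) z * (chi (n + k) 0 z : ℂ) *
    (chi (n + k) 1 z : ℂ) * (chi (n + k) 2 z : ℂ)

theorem pr_lt_pr (m : ℕ) : pr m 0 < pr m 1 ∧ pr m 1 < pr m 2 := by
  have h0 := pr_le m 0
  have h1 := pr_gt m 1
  have h2 := pr_le m 1
  have h3 := pr_gt m 2
  have e1 : 2 ^ (m + 3 + 0) = 2 ^ (m + 2 + 1) := by congr 1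
  have e2 : 2 ^ (m + 3 + 1) = 2 ^ (m + 2 + 2) := by congr 1
  omega

theorem pr_odd (m j : ℕ) : Nat.Coprime 4 (pr m j) := by
  have h2 : pr m j ≠ 2 := by
    have := pr_gt m j
    have h4 : 2 ^ 2 ≤ 2 ^ (m + 2 + j) := Nat.pow_le_pow_right (by norm_num) (by omega)
    omega
  have : Nat.Coprime 2 (pr m j) := by
    rw [Nat.coprime_primes Nat.prime_two (pr_prime m j)]
    exact fun h => h2 h.symm
  have h3 : Nat.Coprime (2 ^ 2) (pr m j) := this.pow_left 2
  simpa using h3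

theorem expn_XX (hEAP : T_EAP) (hECH : T_ECH) (hEML : T_EML) (n k : ℕ) :
    Expn (4 ^ (Nat.size n + 1) * PP (n + k))
      (1 / 4 ^ (Nat.size n + 1) * (1 / Real.sqrt (pr (n + k) 0)) *
        (1 / Real.sqrt (pr (n + k) 1)) * (1 / Real.sqrt (pr (n + k) 2))) (XX n k) := by
  obtain ⟨h01, h12⟩ := pr_lt_pr (n + k)
  have p0 := pr_prime (n + k) 0
  have p1 := pr_prime (n + k) 1
  have p2 := pr_prime (n + k) 2
  have hq : 0 < 4 ^ (Nat.size n + 1) := by positivity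
  have c0 : Nat.Coprime (4 ^ (Nat.size n + 1)) (pr (n + k) 0) := (pr_odd _ _).pow_left _
  have c1 : Nat.Coprime (4 ^ (Nat.size n + 1)) (pr (n + k) 1) := (pr_odd _ _).pow_left _
  have c2 : Nat.Coprime (4 ^ (Nat.size n + 1)) (pr (n + k) 2) := (pr_odd _ _).pow_left _
  have d01 : Nat.Coprime (pr (n + k) 0) (pr (n + k) 1) := (Nat.coprime_primes p0 p1).2 h01.ne
  have d02 : Nat.Coprime (pr (n + k) 0) (pr (n + k) 2) :=
    (Nat.coprime_primes p0 p2).2 (h01.trans h12).ne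
  have d12 : Nat.Coprime (pr (n + k) 1) (pr (n + k) 2) := (Nat.coprime_primes p1 p2).2 h12.ne
  -- the progression
  obtain ⟨c, hc⟩ : ∃ c : ℤ, (fun z => if k = 0 then inh n z else ing n z) =
      fun z : ℤ => (((4 ^ (Nat.size n + 1) : ℕ) : ℤ) ∣ z - c) := by
    by_cases h : k = 0
    · refine ⟨cc n + 4 ^ Nat.size n, ?_⟩
      funext z
      rw [if_pos h, inh]
      push_cast
      rw [sub_sub]
    · refine ⟨cc n + 3 * 4 ^ Nat.size n, ?_⟩
      funext z
      rw [if_neg h, ing]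
      push_cast
      rw [sub_sub]
  have e0 := hEAP (4 ^ (Nat.size n + 1)) c hq
  have e1 := hEML _ _ _ _ _ _ hq p0.pos c0 e0 (hECH (n + k) 0)
  have e2 := hEML _ _ _ _ _ _ (Nat.mul_pos hq p0.pos) p1.pos (Nat.Coprime.mul_left c1 d01) e1
    (hECH (n + k) 1)
  have e3 := hEML _ _ _ _ _ _ (Nat.mul_pos (Nat.mul_pos hq p0.pos) p1.pos) p2.pos
    (Nat.Coprime.mul_left (Nat.Coprime.mul_left c2 d02) d12) e2 (hECH (n + k) 2)
  have hD : 4 ^ (Nat.size n + 1) * PP (n + k) =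
      4 ^ (Nat.size n + 1) * pr (n + k) 0 * pr (n + k) 1 * pr (n + k) 2 := by
    unfold PP; ring
  rw [hD]
  have hX : XX n k = fun z => ind (fun z : ℤ => (((4 ^ (Nat.size n + 1) : ℕ) : ℤ) ∣ z - c)) z *
      (chi (n + k) 0 z : ℂ) * (chi (n + k) 1 z : ℂ) * (chi (n + k) 2 z : ℂ) := by
    funext z
    unfold XX
    rw [hc]
  rw [hX]
  convert e3 using 2
  push_cast
  ring

theorem wx_eq {a k n : ℕ} (hk : k < 2 ^ a) (z : ℤ) :
    wx n (2 ^ a + k) z = -((2 : ℂ) ^ (n + k) / cnt n (2 ^ a + k)) * (-1) ^ a * XX n k z := by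
  unfold wx XX
  rw [lg_add hk, lvl_add n hk]
  have : ind (inP n (2 ^ a + k)) = ind (fun z => if k = 0 then inh n z else ing n z) := by
    congr 1
    funext z
    exact propext (inP_add hk z)
  rw [this]

theorem numeric (m : ℕ) (p0 p1 p2 : ℕ) (h0 : 2 ^ (m + 2 + 0) < p0) (h1 : 2 ^ (m + 2 + 1) < p1)
    (h2 : 2 ^ (m + 2 + 2) < p2) :
    (243 : ℝ) * 2 ^ m ≤ 11 * (3 / 4) ^ m * (Real.sqrt p0 * Real.sqrt p1 * Real.sqrt p2) := by
  have h0' : (2 : ℝ) ^ (m + 2 + 0) ≤ p0 := by exact_mod_cast h0.le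
  have h1' : (2 : ℝ) ^ (m + 2 + 1) ≤ p1 := by exact_mod_cast h1.le
  have h2' : (2 : ℝ) ^ (m + 2 + 2) ≤ p2 := by exact_mod_cast h2.le
  rw [← Real.sqrt_mul (Nat.cast_nonneg _), ← Real.sqrt_mul (by positivity)]
  have hprod : (2 : ℝ) ^ (3 * m + 9) ≤ (p0 : ℝ) * p1 * p2 := by
    calc (2 : ℝ) ^ (3 * m + 9) = 2 ^ (m + 2 + 0) * 2 ^ (m + 2 + 1) * 2 ^ (m + 2 + 2) := by
          rw [← pow_add, ← pow_add]; congr 1; ring
      _ ≤ _ := by gcongr
  have hs : Real.sqrt ((2 : ℝ) ^ (3 * m + 9)) ≤ Real.sqrt ((p0 : ℝ) * p1 * p2) :=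
    Real.sqrt_le_sqrt hprod
  refine le_trans ?_ (mul_le_mul_of_nonneg_left hs (by positivity))
  have hsq : ((243 : ℝ) * 2 ^ m) ^ 2 ≤ (11 * (3 / 4) ^ m * Real.sqrt ((2 : ℝ) ^ (3 * m + 9))) ^ 2 := by
    have e : (11 * (3 / 4 : ℝ) ^ m * Real.sqrt ((2 : ℝ) ^ (3 * m + 9))) ^ 2 =
        61952 * (9 / 8) ^ m * 4 ^ m := by
      rw [mul_pow, Real.sq_sqrt (by positivity), pow_add, pow_mul, mul_pow, ← pow_mul,
        mul_comm m 2, pow_mul]
      have : (9 / 8 : ℝ) ^ m * 4 ^ m = ((3 / 4) ^ 2) ^ m * (2 ^ 3) ^ m := by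
        rw [← mul_pow, ← mul_pow]; norm_num
      rw [mul_assoc 61952, this]
      norm_num
      ring
    rw [e, mul_pow, ← pow_mul, mul_comm m 2, pow_mul]
    have h1 : (1 : ℝ) ≤ (9 / 8) ^ m := one_le_pow₀ (by norm_num)
    have h4 : (0 : ℝ) < 4 ^ m := by positivity
    norm_num
    nlinarith
  exact le_of_sq_le_sq hsq (by positivity)

theorem fam (hFAP : T_FAP) (hEAP : T_EAP) (hECH : T_ECH) (hEML : T_EML) (hCNB : T_CNB)
    (hDIV : T_DIV) (hNNA : T_NNA) (hSLT : T_SLT) : T_FAM := by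
  classical
  intro n k M w hw
  obtain ⟨a0, ha0⟩ : ∃ a0 : ℕ, ∀ a, (n < 2 ^ a ∧ k < 2 ^ a) ↔ a0 ≤ a := by
    refine ⟨max (Nat.size n) (Nat.size k), fun a => ?_⟩
    rw [max_le_iff, Nat.size_le, Nat.size_le]
  let i : ℕ → ℕ := fun b => 2 ^ (a0 + b) + k
  have hnk : ∀ b, n < 2 ^ (a0 + b) ∧ k < 2 ^ (a0 + b) := fun b => (ha0 _).2 (Nat.le_add_right _ _)
  have hval : ∀ b, Valid n (i b) := fun b => valid_add (hnk b).2 (hnk b).1
  have hi : ∀ b b', b < b' → i b < i b' := by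
    intro b b' h
    have : 2 ^ (a0 + b) < 2 ^ (a0 + b') := Nat.pow_lt_pow_right (by norm_num) (by omega)
    simp only [i]; omega
  have hslot : ∀ b b', b < b' → slot n (i b) < slot n (i b') := fun b b' h =>
    hSLT.2.1 n _ n _ (hval b) (hval b') (hi b b' h)
  have hslotb : ∀ b, a0 + b < slot n (i b) := by
    intro b
    have h1 : a0 + b < 2 ^ (a0 + b) := Nat.lt_two_pow_self
    have h2 : 2 ^ (a0 + b) ≤ i b := by simp only [i]; omega
    have h3 : i b ≤ i b ^ 2 := Nat.le_self_pow (by norm_num) _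
    unfold slot
    omega
  -- the number of stations
  have hex : ∃ b, ¬ slot n (i b) < M := ⟨M, by have := hslotb M; omega⟩
  let L := Nat.find hex
  have hL : ∀ b, slot n (i b) < M ↔ b < L := by
    intro b
    constructor
    · intro h
      by_contra hb
      push Not at hb
      have h1 : ¬ slot n (i L) < M := Nat.find_spec hex
      rcases Nat.lt_or_eq_of_le hb with h2 | h2
      · exact h1 ((hslot _ _ h2).trans h)
      · rw [← h2] at h; exact h1 h
    · intro h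
      by_contra hb
      exact absurd (Nat.find_min' hex hb) (by omega)
  have hset : (Finset.range M).filter
      (fun a => n < 2 ^ a ∧ k < 2 ^ a ∧ slot n (2 ^ a + k) < M) =
      (Finset.range L).image (fun b => a0 + b) := by
    ext a
    rw [Finset.mem_filter, Finset.mem_range, Finset.mem_image]
    constructor
    · rintro ⟨_, h1, h2, h3⟩
      have h4 := (ha0 a).1 ⟨h1, h2⟩
      refine ⟨a - a0, ?_, by omega⟩
      rw [Finset.mem_range, ← hL]
      simp only [i]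
      rw [show a0 + (a - a0) = a by omega]
      exact h3
    · rintro ⟨b, hb, rfl⟩
      rw [Finset.mem_range, ← hL] at hb
      have := hslotb b
      exact ⟨by omega, (hnk b).1, (hnk b).2, hb⟩
  rw [hset, Finset.sum_image (fun b _ b' _ h => by simpa using h)]
  -- the constant
  let Γ : ℝ := (4 ^ (Nat.size n + 1) * PP (n + k) : ℝ) /
      (((pr (n + k) 0 - 1) / 2 * ((pr (n + k) 1 - 1) / 2) * ((pr (n + k) 2 - 1) / 2) : ℕ) : ℝ)
  have hlvl : ∀ b, lvl n (i b) = n + k := fun b => lvl_add n (hnk b).2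
  have hΓ : ∀ b, (NN (slot n (i b)) : ℝ) / cnt n (i b) = Γ := by
    intro b
    have := (hCNB n (i b) (hval b)).2.1
    rw [hlvl b] at this
    exact this
  have hΓb : Γ ≤ 27 * 4 ^ (Nat.size n + 1) := by
    have := (hCNB n (i 0) (hval 0)).2.2
    rw [hlvl 0] at this
    exact this
  have hΓ0 : 0 ≤ Γ := by
    rw [← hΓ 0]; positivity
  have hterm : ∀ b, ∑ z ∈ Finset.Ico (NN (slot n (2 ^ (a0 + b) + k)) : ℤ)
      (2 * NN (slot n (2 ^ (a0 + b) + k))), wx n (2 ^ (a0 + b) + k) z * w ^ z =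
      (-(2 : ℂ) ^ (n + k) * Γ * (-1) ^ a0) *
        ((-1) ^ b * av (NN (slot n (i b))) (XX n k) w) := by
    intro b
    have hN : (NN (slot n (i b)) : ℂ) ≠ 0 := by
      exact_mod_cast (hNNA.1 _).ne'
    have hcn : (cnt n (i b) : ℂ) ≠ 0 := by
      exact_mod_cast (hCNB n (i b) (hval b)).1.ne'
    have hΓc : (Γ : ℂ) = (NN (slot n (i b)) : ℂ) / cnt n (i b) := by
      rw [← hΓ b]; push_cast; rfl
    unfold av
    have hi' : 2 ^ (a0 + b) + k = i b := rfl
    rw [hΓc]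
    have h1 : ∀ z, wx n (2 ^ (a0 + b) + k) z * w ^ z =
        (-((2 : ℂ) ^ (n + k) / cnt n (i b)) * (-1) ^ (a0 + b)) * (XX n k z * w ^ z) := by
      intro z
      rw [wx_eq (hnk b).2 z]
      ring
    simp only [h1]
    rw [← Finset.mul_sum, hi']
    field_simp
    rw [pow_add]
    ring
  simp only [hterm]
  rw [← Finset.mul_sum, norm_mul]
  -- the bound for the alternating sum
  have hF := hFAP _ _ _ (by
      have h1 := (pr_prime (n + k) 0).pos
      have h2 := (pr_prime (n + k) 1).pos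
      have h3 := (pr_prime (n + k) 2).pos
      unfold PP
      positivity) (expn_XX hEAP hECH hEML n k) (fun b => NN (slot n (i b)))
      (fun b => ⟨hNNA.1 _, hNNA.2.2.1 _ _ (hslot b (b + 1) (Nat.lt_succ_self b))⟩) (by
        have := (hDIV n (i 0) (hval 0)).2
        rw [hlvl 0] at this
        exact this) w hw L
  have hnorm : ‖(-(2 : ℂ) ^ (n + k) * (Γ : ℂ) * (-1) ^ a0)‖ = 2 ^ (n + k) * Γ := by
    rw [norm_mul, norm_mul, norm_neg, norm_pow, norm_pow, norm_neg, norm_one, one_pow, mul_one,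
      Complex.norm_real, Real.norm_eq_abs, abs_of_nonneg hΓ0]
    norm_num
  rw [hnorm]
  have hp0 : 0 < Real.sqrt (pr (n + k) 0) := Real.sqrt_pos.2 (by exact_mod_cast (pr_prime _ _).pos)
  have hp1 : 0 < Real.sqrt (pr (n + k) 1) := Real.sqrt_pos.2 (by exact_mod_cast (pr_prime _ _).pos)
  have hp2 : 0 < Real.sqrt (pr (n + k) 2) := Real.sqrt_pos.2 (by exact_mod_cast (pr_prime _ _).pos)
  have hnum := numeric (n + k) _ _ _ (pr_gt (n + k) 0) (pr_gt (n + k) 1) (pr_gt (n + k) 2)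
  refine (mul_le_mul_of_nonneg_left hF (by positivity)).trans ?_
  have h4 : (0 : ℝ) < 4 ^ (Nat.size n + 1) := by positivity
  calc (2 : ℝ) ^ (n + k) * Γ * (9 * (1 / 4 ^ (Nat.size n + 1) * (1 / Real.sqrt (pr (n + k) 0)) *
        (1 / Real.sqrt (pr (n + k) 1)) * (1 / Real.sqrt (pr (n + k) 2))))
      ≤ (2 : ℝ) ^ (n + k) * (27 * 4 ^ (Nat.size n + 1)) *
        (9 * (1 / 4 ^ (Nat.size n + 1) * (1 / Real.sqrt (pr (n + k) 0)) *
        (1 / Real.sqrt (pr (n + k) 1)) * (1 / Real.sqrt (pr (n + k) 2)))) := by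
        gcongr
    _ = 243 * 2 ^ (n + k) / (Real.sqrt (pr (n + k) 0) * Real.sqrt (pr (n + k) 1) *
        Real.sqrt (pr (n + k) 2)) := by
        field_simp
        ring
    _ ≤ 11 * (3 / 4) ^ (n + k) := by
        rw [div_le_iff₀ (by positivity)]
        exact hnum

end Pool.Agent.H99.SC
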