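import Pool.Agent.H85.SC.Targets

/-! Module PTH of the board sc_modules (MP_de9001_an): the function attached to a branch. -/

namespace Pool.Agent.H99.SC

open Pool.Agent.H87.Synth Pool.Agent.H85.SC

theorem lg_add' {a k : ℕ} (hk : k < 2 ^ a) : lg (2 ^ a + k) = a := by
  unfold lg
  rw [Nat.log_eq_iff (Or.inr ⟨by norm_num, by positivity⟩)]
  constructor
  · omega
  · rw [pow_succ]; omega

theorem pth (hPCE : T_PCE) (hPVL : T_PVL) : T_PTH := by
  classical
  intro S v a hbr
  obtain ⟨hv0, hvS, hv⟩ := hbr
  have hstep : ∀ k, v k < v (k + 1) := fun k => by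
    rw [(hv k).2]; have : 0 < 2 ^ a k := by positivity
    omega
  have hmono : StrictMono v := strictMono_nat_of_lt_succ hstep
  have hid : ∀ k, k ≤ v k := fun k => hmono.id_le k
  have hex : ∀ m, ∃ k, m < v (k + 1) := fun m => ⟨m, by have := hid (m + 1); omega⟩
  let K : ℕ → ℕ := fun m => Nat.find (hex m)
  have hK1 : ∀ m, m < v (K m + 1) := fun m => Nat.find_spec (hex m)
  have hK0 : ∀ m, v (K m) ≤ m := by
    intro m
    rcases Nat.eq_zero_or_pos (K m) with h | h
    · rw [h, hv0]; exact Nat.zero_le _
    · have h1 := Nat.find_min (hex m) (m := K m - 1) (by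
        change K m - 1 < K m
        omega)
      rw [Nat.sub_add_cancel h] at h1
      omega
  have hKu : ∀ m k, v k ≤ m → m < v (k + 1) → K m = k := by
    intro m k h1 h2
    have e1 : K m < k + 1 := hmono.lt_iff_lt.1 ((hK0 m).trans_lt h2)
    have e2 : k < K m + 1 := hmono.lt_iff_lt.1 (h1.trans_lt (hK1 m))
    omega
  let ii : ℕ → ℕ := fun m => 2 ^ a (K m) + (m - v (K m))
  have hlt : ∀ m, m - v (K m) < 2 ^ a (K m) := by
    intro m
    have h1 := hK1 m
    rw [(hv (K m)).2] at h1
    have h2 := hK0 m
    omega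
  have hlgi : ∀ m, lg (ii m) = a (K m) := fun m => lg_add' (hlt m)
  have hval : ∀ m, Valid (v (K m)) (ii m) := by
    intro m
    refine ⟨?_, ?_⟩
    · have : 0 < 2 ^ a (K m) := by positivity
      simp only [ii]; omega
    · rw [hlgi]; exact (hv _).1
  have hlvl : ∀ m, lvl (v (K m)) (ii m) = m := by
    intro m
    unfold lvl
    rw [hlgi]
    have h2 := hK0 m
    simp only [ii]
    omega
  choose x hxn hxc using fun m => hPCE (v (K m)) (ii m) (hval m)
  have hsum : Summable x := by
    refine Summable.of_norm_bounded (g := fun m => 20 * (3 / 4 : ℝ) ^ m) ?_ ?_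
    · exact (summable_geometric_of_lt_one (by norm_num) (by norm_num)).mul_left _
    · intro m
      have := hxn m
      rwa [hlvl m] at this
  refine ⟨∑' m, x m, fun n i z hreg => ?_⟩
  have hc : coeff (∑' m, x m) z = ∑' m, pm (v (K m)) (ii m) z := by
    rw [← coeffL_apply, (coeffL z).map_tsum hsum]
    exact tsum_congr fun m => by rw [coeffL_apply, hxc]
  rw [hc]
  have hterm : ∀ m, pm (v (K m)) (ii m) z =
      if n = v (K m) ∧ i = ii m then
        (1 / 2) ^ lvl (v (K m)) (ii m) * (((s1 (v (K m)) (ii m) z : ℂ) +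
          s2 (v (K m)) (ii m) z) / 4 + (s3 (v (K m)) (ii m) z : ℂ) / 2)
      else if n = v (K m) ∧ ii m = 2 ^ lg (ii m) ∧ i = 2 ^ lg i ∧ i < ii m then
        (1 / 2) ^ lvl (v (K m)) i * (((s1 (v (K m)) i z : ℂ) + s2 (v (K m)) i z) / 2)
      else 0 := fun m => hPVL _ _ _ _ z (hval m) hreg
  have hi1 : 1 ≤ i := hreg.1.1
  have hlgle : 2 ^ lg i ≤ i := Nat.pow_log_le_self 2 (by omega)
  have hltlg : i < 2 ^ (lg i + 1) := Nat.lt_pow_succ_log_self (by norm_num) i
  unfold pv
  by_cases h1 : ∃ k, n = v k ∧ i = 2 ^ lg i ∧ lg i < a k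
  · rw [if_pos h1]
    obtain ⟨k, hnk, hi, hlg⟩ := h1
    have hKk : K (v k) = k := hKu _ _ le_rfl (hstep k)
    have hik : ii (v k) = 2 ^ a k := by
      simp only [ii]
      rw [hKk]; simp
    have hlt' : i < 2 ^ a k := by
      rw [hi]; exact Nat.pow_lt_pow_right (by norm_num) hlg
    rw [tsum_eq_single (v k)]
    · rw [hterm, if_neg, if_pos]
      · rw [hKk, ← hnk]
      · refine ⟨by rw [hKk]; exact hnk, ?_, hi, ?_⟩
        · rw [hlgi, hKk, hik]
        · rw [hik]; exact hlt'
      · rintro ⟨_, h⟩
        rw [hik] at h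
        omega
    · intro m hm
      rw [hterm, if_neg, if_neg]
      · rintro ⟨h2, h3, _, _⟩
        have h4 : K m = k := hmono.injective (h2.symm.trans hnk)
        apply hm
        rw [hlgi] at h3
        simp only [ii] at h3
        rw [h4] at h3
        have := hK0 m
        rw [h4] at this
        omega
      · rintro ⟨h2, h3⟩
        have h4 : K m = k := hmono.injective (h2.symm.trans hnk)
        have h5 := hlgi m
        rw [← h3, h4] at h5
        omega
  · rw [if_neg h1]
    by_cases h2 : ∃ k, n = v k ∧ lg i = a k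
    · rw [if_pos h2]
      obtain ⟨k, hnk, hlg⟩ := h2
      have hlt2 : i - 2 ^ a k < 2 ^ a k := by
        rw [← hlg]
        rw [pow_succ] at hltlg
        omega
      have hKk : K (v k + (i - 2 ^ a k)) = k := by
        refine hKu _ _ (Nat.le_add_right _ _) ?_
        rw [(hv k).2]
        omega
      have hik : ii (v k + (i - 2 ^ a k)) = i := by
        simp only [ii]
        rw [hKk, Nat.add_sub_cancel_left]
        rw [← hlg]
        omega
      rw [tsum_eq_single (v k + (i - 2 ^ a k))]
      · rw [hterm, if_pos]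
        · rw [hik, hKk, ← hnk]
        · exact ⟨by rw [hKk]; exact hnk, hik.symm⟩
      · intro m hm
        rw [hterm, if_neg, if_neg]
        · rintro ⟨h3, h4, h5, h6⟩
          have h7 : K m = k := hmono.injective (h3.symm.trans hnk)
          rw [hlgi, h7, ← hlg] at h4
          omega
        · rintro ⟨h3, h4⟩
          have h7 : K m = k := hmono.injective (h3.symm.trans hnk)
          apply hm
          simp only [ii] at h4
          rw [h7] at h4
          have := hK0 m
          rw [h7] at this
          omega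
    · rw [if_neg h2]
      have hz : ∀ m, pm (v (K m)) (ii m) z = 0 := by
        intro m
        rw [hterm, if_neg, if_neg]
        · rintro ⟨h3, h4, h5, h6⟩
          apply h1
          refine ⟨K m, h3, h5, ?_⟩
          rw [h5, h4, hlgi] at h6
          exact (Nat.pow_lt_pow_iff_right (by norm_num)).1 h6
        · rintro ⟨h3, h4⟩
          exact h2 ⟨K m, h3, by rw [h4, hlgi]⟩
      simp only [hz, tsum_zero]

end Pool.Agent.H99.SC
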